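import Pool.Agent.Run7.h878.CM.Hard

/-!
# Two edge-disjoint perfect matchings, the first one monochromatic

Given a 2-edge-coloured bipartite graph, are there edge-disjoint perfect matchings `M₁`, `M₂` such that all edges of
`M₁` have colour 1? The problem is NP-complete.

The reduction is from 3-SAT. The edges of colour 1 form an edge for every clause and an even cycle for every variable,
so `M₁` chooses one of the two perfect matchings of each cycle (the truth value of the variable). The second matching
cannot use the chosen edges; it has to cover the two vertices of a clause by edges of colour 2, to the two ends of an
edge of a cycle, and this edge must not belong to `M₁`.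
-/

namespace Pool.Agent.Results.MP_439cda_lc.MonochromaticFirstNPComplete

open Pool.Agent.Lib.CX Pool.Agent.Run7.h878.CM

/-- **COL-2PM is NP-complete.** -/
theorem result : NPComplete ColPM := ⟨colPM_inNP, colPM_hard⟩

end Pool.Agent.Results.MP_439cda_lc.MonochromaticFirstNPComplete
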